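import Pool.Agent.Helper35.PI.St3

/-! # Project PI, module DE: length and tilt estimates along a lift of a segment -/

set_option autoImplicit false

namespace Helper76.PI

open Helper35.PI
open scoped ContDiff Manifold Topology
open Set Filter

private lemma sp_congr {N : ℕ} {K₁ K₂ : Submodule ℝ (EE N)} (h : K₁ = K₂) :
    K₁.starProjection = K₂.starProjection := by
  subst h
  rfl

/-- the orthogonal projection to the range of a linear isometry -/
private lemma sp_range {n N : ℕ} (L : EE n →ₗᵢ[ℝ] EE N) (K : Submodule ℝ (EE N))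
    (hK : LinearMap.range L.toLinearMap = K) (w : EE N) (x : EE n)
    (hx : ∀ v : EE n, (inner ℝ w (L v) : ℝ) = inner ℝ x v) : K.starProjection w = L x := by
  have hmem : K.starProjection w ∈ K := Submodule.starProjection_apply_mem K w
  have hmem' : K.starProjection w ∈ LinearMap.range L.toLinearMap := by
    rw [hK]
    exact hmem
  obtain ⟨a, ha⟩ := hmem'
  have ha' : L a = K.starProjection w := ha
  have h1 : ∀ b : EE n, (inner ℝ a b : ℝ) = inner ℝ x b := by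
    intro b
    have hb : L b ∈ K := by
      rw [← hK]
      exact ⟨b, rfl⟩
    have h2 := Submodule.starProjection_inner_eq_zero (K := K) w (L b) hb
    rw [inner_sub_left, sub_eq_zero, ← ha', L.inner_map_map] at h2
    rw [← h2, hx b]
  have h3 : a = x := ext_inner_right ℝ h1
  rw [← ha', h3]

private lemma ee_sum {n : ℕ} (η : EE n) : η = ∑ i, η i • ee i := by
  ext j
  simp [ee, Finset.sum_apply, Pi.single_apply]

private lemma fderiv_sum {n N : ℕ} (f : EE n → EE N) (y : EE n) (η : EE n) :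
    fderiv ℝ f y η = ∑ i, η i • dv1 f y i := by
  conv_lhs => rw [ee_sum η]
  rw [map_sum]
  simp only [map_smul]
  rfl

private lemma fderiv_mem {n N : ℕ} (f : EE n → EE N) (y : EE n) (η : EE n) :
    fderiv ℝ f y η ∈ Submodule.span ℝ (range fun i => dv1 f y i) := by
  rw [fderiv_sum]
  refine Submodule.sum_mem _ fun i _ => Submodule.smul_mem _ _ (Submodule.subset_span ⟨i, rfl⟩)

private lemma fderiv_inj {n N : ℕ} (f : EE n → EE N) (y : EE n) (h : LI f y) (η : EE n)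
    (h0 : fderiv ℝ f y η = 0) : η = 0 := by
  rw [fderiv_sum] at h0
  have h1 := Fintype.linearIndependent_iff.mp h (fun i => η i) h0
  ext i
  simpa using h1 i

section
variable {n N : ℕ} {M : Type} [TopologicalSpace M] [ChartedSpace (EE n) M]
  [IsManifold (𝓡 n) ∞ M]

private lemma local_deriv (hDP : StDP) (hI2 : StI2) (hI3 : StI3) (F : M → ℝ → EE N)
    (hF : IsMCF (n := n) F) (t : ℝ) (p : M) (L : EE n →ₗᵢ[ℝ] EE N) (ht : t < 0)
    (hL : LinearMap.range L.toLinearMap = TS (n := n) F p t) (x : EE n) (s : ℝ)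
    (γ : ℝ → M) (hγ : ContinuousOn γ (Ico 0 s))
    (hγ2 : ∀ σ ∈ Ico 0 s,
      ‖(TS (n := n) F (γ σ) t).starProjection - (TS (n := n) F p t).starProjection‖ < 1 / 2 ∧
      ∀ v : EE n, (inner ℝ (F (γ σ) t - F p t - σ • L x) (L v) : ℝ) = 0)
    (σ₀ : ℝ) (hσ₀ : σ₀ ∈ Ico 0 s) :
    ∃ (v : EE N) (D : EE N →L[ℝ] EE N),
      HasDerivWithinAt (fun σ => F (γ σ) t) v (Ico 0 s) σ₀ ∧
      HasDerivWithinAt (fun σ => (TS (n := n) F (γ σ) t).starProjection) D (Ico 0 s) σ₀ ∧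
      ‖v‖ ≤ 2 * ‖x‖ ∧ ‖D‖ ≤ Real.sqrt (AA (n := n) F (γ σ₀) t) * ‖v‖ := by
  set q₀ : M := γ σ₀ with hq₀
  set e := chartAt (EE n) q₀ with he
  have hq₀s : q₀ ∈ e.source := mem_chart_source (EE n) q₀
  set y₀ : EE n := e q₀ with hy₀
  set f : EE n → EE N := loc (n := n) F q₀ t with hf
  -- smoothness of `f`
  have hfs : ∀ y ∈ e.target, ContDiffAt ℝ 2 f y := by
    intro y hy
    have h1 := hI2 n N M F hF q₀
    have h2 : ContDiffAt ℝ ∞ (fun z : EE n × ℝ => F ((chartAt (EE n) q₀).symm z.1) z.2) (y, t) := by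
      refine h1.contDiffAt ?_
      exact (e.open_target.prod isOpen_Iio).mem_nhds ⟨hy, ht⟩
    have h3 : ContDiffAt ℝ ∞ (fun y' : EE n => (y', t)) y := contDiffAt_id.prodMk contDiffAt_const
    have h4 := h2.comp y h3
    exact_mod_cast (contDiffAt_infty.mp h4) 2
  have hy₀t : y₀ ∈ e.target := e.map_source hq₀s
  have hfy₀ : ContDiffAt ℝ 2 f y₀ := hfs y₀ hy₀t
  obtain ⟨hLI₀, -, -, -, hTS₀⟩ := hI3 n N M F hF q₀ q₀ t ht hq₀s
  -- the curve in the chart
  have hγ₀ : ContinuousWithinAt γ (Ico 0 s) σ₀ := hγ σ₀ hσ₀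
  have hev : ∀ᶠ σ in 𝓝[Ico 0 s] σ₀, γ σ ∈ e.source :=
    hγ₀.eventually (e.open_source.mem_nhds hq₀s)
  have hevI : ∀ᶠ σ in 𝓝[Ico 0 s] σ₀, σ ∈ Ico 0 s := eventually_mem_nhdsWithin
  have hycont : ContinuousWithinAt (fun σ => e (γ σ)) (Ico 0 s) σ₀ :=
    (e.continuousAt hq₀s).comp_continuousWithinAt hγ₀
  have hΓ : ∀ᶠ σ in 𝓝[Ico 0 s] σ₀, F (γ σ) t = f (e (γ σ)) := by
    filter_upwards [hev] with σ hσ
    show F (γ σ) t = F (e.symm (e (γ σ))) t
    rw [e.left_inv hσ]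
  -- the adjoint
  set Ls : EE N →L[ℝ] EE n := ContinuousLinearMap.adjoint L.toContinuousLinearMap with hLs
  have hLs1 : ∀ (w : EE N) (v : EE n), (inner ℝ (Ls w) v : ℝ) = inner ℝ w (L v) := by
    intro w v
    rw [hLs, ContinuousLinearMap.adjoint_inner_left]
    rfl
  have hLs2 : ∀ a : EE n, Ls (L a) = a := by
    intro a
    refine ext_inner_right ℝ fun v => ?_
    rw [hLs1, L.inner_map_map]
  have hΨσ : ∀ σ ∈ Ico 0 s, Ls (F (γ σ) t - F p t) = σ • x := by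
    intro σ hσ
    refine ext_inner_right ℝ fun v => ?_
    have h1 := (hγ2 σ hσ).2 v
    rw [inner_sub_left, sub_eq_zero] at h1
    rw [hLs1, h1, real_inner_smul_left, L.inner_map_map, real_inner_smul_left]
  -- the map `Ψ`
  set f' : EE n →L[ℝ] EE N := fderiv ℝ f y₀ with hf'
  have hsf : HasStrictFDerivAt f f' y₀ := hfy₀.hasStrictFDerivAt (by norm_num)
  have hΨ : HasStrictFDerivAt (fun y => Ls (f y - F p t)) (Ls.comp f') y₀ := by
    have h1 : HasStrictFDerivAt (fun y => f y - F p t) f' y₀ := hsf.sub_const _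
    exact Ls.hasStrictFDerivAt.comp y₀ h1
  -- bound for tangent vectors
  have htan : ∀ w ∈ TS (n := n) F q₀ t, ‖w‖ ≤ 2 * ‖Ls w‖ := by
    intro w hw
    have h1 : (TS (n := n) F q₀ t).starProjection w = w :=
      Submodule.starProjection_eq_self_iff.mpr hw
    have h2 : (TS (n := n) F p t).starProjection w = L (Ls w) :=
      sp_range L _ hL w (Ls w) (fun v => (hLs1 w v).symm)
    have h3 : ‖w - L (Ls w)‖ ≤ 1 / 2 * ‖w‖ := by
      have h4 := ((TS (n := n) F q₀ t).starProjection - (TS (n := n) F p t).starProjection).le_opNorm w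
      have h5 : ((TS (n := n) F q₀ t).starProjection - (TS (n := n) F p t).starProjection) w =
          w - L (Ls w) := by
        rw [_root_.sub_apply, h1, h2]
      rw [h5] at h4
      exact h4.trans (mul_le_mul_of_nonneg_right (hγ2 σ₀ hσ₀).1.le (norm_nonneg _))
    have h6 : ‖w‖ ≤ ‖w - L (Ls w)‖ + ‖L (Ls w)‖ := by
      have := norm_add_le (w - L (Ls w)) (L (Ls w))
      rwa [sub_add_cancel] at this
    rw [L.norm_map] at h6
    linarith
  have hf'mem : ∀ η, f' η ∈ TS (n := n) F q₀ t := by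
    intro η
    rw [hTS₀]
    exact fderiv_mem f y₀ η
  have hinj : Function.Injective (Ls.comp f').toLinearMap := by
    rw [← LinearMap.ker_eq_bot, LinearMap.ker_eq_bot']
    intro η hη
    have h1 : Ls (f' η) = 0 := hη
    have h2 := htan (f' η) (hf'mem η)
    rw [h1, norm_zero, mul_zero] at h2
    exact fderiv_inj f y₀ hLI₀ η (norm_le_zero_iff.mp h2)
  set E : EE n ≃L[ℝ] EE n :=
    (LinearEquiv.ofInjectiveEndo (Ls.comp f').toLinearMap hinj).toContinuousLinearEquiv with hE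
  have hEc : (E : EE n →L[ℝ] EE n) = Ls.comp f' := by
    ext1 η
    rfl
  have hΨE : HasStrictFDerivAt (fun y => Ls (f y - F p t)) (E : EE n →L[ℝ] EE n) y₀ := by
    rw [hEc]
    exact hΨ
  have hleft := hΨE.eventually_left_inverse
  have hginv := hΨE.to_localInverse
  set g := hΨE.localInverse (fun y => Ls (f y - F p t)) E y₀ with hg
  have hΨy₀ : Ls (f y₀ - F p t) = σ₀ • x := by
    have h1 : f y₀ = F (γ σ₀) t := by
      show F (e.symm (e q₀)) t = F q₀ t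
      rw [e.left_inv hq₀s]
    rw [h1]
    exact hΨσ σ₀ hσ₀
  have hyeq : ∀ᶠ σ in 𝓝[Ico 0 s] σ₀, e (γ σ) = g (σ • x) := by
    have h1 : ∀ᶠ σ in 𝓝[Ico 0 s] σ₀, g (Ls (f (e (γ σ)) - F p t)) = e (γ σ) :=
      hycont.eventually hleft
    filter_upwards [h1, hΓ, hevI] with σ h1 h2 h3
    rw [← h1, ← h2, hΨσ σ h3]
  set η : EE n := E.symm x with hη
  have hAη : Ls (f' η) = x := by
    have h1 : (E : EE n →L[ℝ] EE n) η = x := E.apply_symm_apply x
    rw [hEc] at h1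
    exact h1
  have hyd : HasDerivWithinAt (fun σ => e (γ σ)) η (Ico 0 s) σ₀ := by
    have h1 : HasFDerivAt g (E.symm : EE n →L[ℝ] EE n) (σ₀ • x) := by
      rw [← hΨy₀]
      exact hginv.hasFDerivAt
    have h2 : HasDerivAt (fun σ : ℝ => σ • x) x σ₀ := by
      simpa using (hasDerivAt_id σ₀).smul_const x
    have h3 : HasDerivAt (g ∘ fun σ : ℝ => σ • x) ((E.symm : EE n →L[ℝ] EE n) x) σ₀ :=
      HasFDerivAt.comp_hasDerivAt σ₀ h1 h2
    refine h3.hasDerivWithinAt.congr_of_eventuallyEq hyeq ?_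
    exact hyeq.self_of_nhdsWithin hσ₀
  refine ⟨f' η, fderiv ℝ (Pr f) y₀ η, ?_, ?_, ?_, ?_⟩
  · have h1 : HasDerivWithinAt (f ∘ fun σ => e (γ σ)) (f' η) (Ico 0 s) σ₀ :=
      HasFDerivAt.comp_hasDerivWithinAt σ₀ hsf.hasFDerivAt hyd
    exact h1.congr_of_eventuallyEq hΓ (hΓ.self_of_nhdsWithin hσ₀)
  · obtain ⟨hd, -, -, -⟩ := hDP n N f y₀ hfy₀ hLI₀
    have h1 : HasDerivWithinAt (Pr f ∘ fun σ => e (γ σ)) (fderiv ℝ (Pr f) y₀ η) (Ico 0 s) σ₀ :=
      HasFDerivAt.comp_hasDerivWithinAt σ₀ hd.hasFDerivAt hyd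
    have h2 : ∀ᶠ σ in 𝓝[Ico 0 s] σ₀,
        (TS (n := n) F (γ σ) t).starProjection = Pr f (e (γ σ)) := by
      filter_upwards [hev] with σ hσ
      obtain ⟨hLI, -, -, -, hTS⟩ := hI3 n N M F hF q₀ (γ σ) t ht hσ
      obtain ⟨-, -, h3, -⟩ := hDP n N f (e (γ σ)) (hfs _ (e.map_source hσ)) hLI
      rw [sp_congr hTS]
      ext1 w
      exact (h3 w).symm
    exact h1.congr_of_eventuallyEq h2 (h2.self_of_nhdsWithin hσ₀)
  · have h1 := htan (f' η) (hf'mem η)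
    rw [hAη] at h1
    exact h1
  · obtain ⟨-, -, -, h1⟩ := hDP n N f y₀ hfy₀ hLI₀
    exact h1 η

end

theorem hDE (hDP : StDP) (hNR : StNR) (hI2 : StI2) (hI3 : StI3) : StDE := by
  intro n N hn M _ _ _ _ F hF t Λ ρ p L ht hΛ hρ hρΛ hL hAA x hx s hs0 hs1 γ hγ hγ0 hγ2
  have _hNR := hNR
  have hloc := fun σ₀ hσ₀ => local_deriv hDP hI2 hI3 F hF t p L ht hL x s γ hγ hγ2 σ₀ hσ₀
  choose! v D hv hD hvn hDn using hloc
  have hconv : Convex ℝ (Ico (0 : ℝ) s) := convex_Ico 0 s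
  have hLip : ∀ σ ∈ Ico 0 s, ∀ σ' ∈ Ico 0 s,
      ‖F (γ σ) t - F (γ σ') t‖ ≤ 2 * ‖x‖ * |σ - σ'| := by
    intro σ hσ σ' hσ'
    have h := hconv.norm_image_sub_le_of_norm_hasDerivWithin_le (f := fun σ => F (γ σ) t)
      (f' := v) (C := 2 * ‖x‖) (fun τ hτ => hv τ hτ) (fun τ hτ => hvn τ hτ) hσ' hσ
    simpa [Real.norm_eq_abs] using h
  have h0 : (0 : ℝ) ∈ Ico 0 s := ⟨le_rfl, hs0⟩
  have hdist : ∀ σ ∈ Ico 0 s, ‖F (γ σ) t - F p t‖ ≤ 4 * ρ := by
    intro σ hσ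
    have h1 := hLip σ hσ 0 h0
    rw [hγ0, sub_zero, abs_of_nonneg hσ.1] at h1
    have h2 : 2 * ‖x‖ * σ ≤ 2 * ‖x‖ * 1 :=
      mul_le_mul_of_nonneg_left (hσ.2.le.trans hs1) (by positivity)
    linarith
  have hDn' : ∀ σ ∈ Ico 0 s, ‖D σ‖ ≤ 4 * (ρ * Λ) := by
    intro σ hσ
    have h1 : Real.sqrt (AA (n := n) F (γ σ) t) ≤ Λ := by
      rw [← Real.sqrt_sq hΛ.le]
      exact Real.sqrt_le_sqrt (hAA (γ σ) (hdist σ hσ))
    have h2 : ‖v σ‖ ≤ 4 * ρ := (hvn σ hσ).trans (by linarith)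
    calc ‖D σ‖ ≤ Real.sqrt (AA (n := n) F (γ σ) t) * ‖v σ‖ := hDn σ hσ
      _ ≤ Λ * (4 * ρ) := mul_le_mul h1 h2 (norm_nonneg _) hΛ.le
      _ = 4 * (ρ * Λ) := by ring
  intro σ hσ σ' hσ'
  refine ⟨hLip σ hσ σ' hσ', ?_⟩
  have h := hconv.norm_image_sub_le_of_norm_hasDerivWithin_le
    (f := fun σ => (TS (n := n) F (γ σ) t).starProjection)
    (f' := D) (C := 4 * (ρ * Λ)) (fun τ hτ => hD τ hτ) (fun τ hτ => hDn' τ hτ) h0 hσ
  simp only [hγ0] at h
  refine h.trans ?_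
  rw [sub_zero, Real.norm_eq_abs, abs_of_nonneg hσ.1]
  have h3 : 0 ≤ ρ * Λ := by positivity
  have h4 : 4 * (ρ * Λ) * σ ≤ 4 * (ρ * Λ) * 1 :=
    mul_le_mul_of_nonneg_left (hσ.2.le.trans hs1) (by positivity)
  linarith

end Helper76.PI
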