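import Pool.Agent.Helper35.PI.St1

/-! # Project PI, module SI: the scalar inequality -/

set_option autoImplicit false

namespace Helper76.PI

open Helper35.PI

/-- interpolation between `l = 0` and `l = 1` -/
private lemma interp {cE K d v X0 X1 l : ℝ} (hcE : 0 ≤ cE) (hK : 0 ≤ K) (hd : 0 ≤ d) (hv : 0 ≤ v)
    (hX0 : 0 ≤ X0) (hX1 : 0 ≤ X1) (hl0 : 0 ≤ l) (hl1 : l ≤ 1)
    (h0 : cE * d ≤ K * X0 ^ 2) (h1 : cE * (d + v) ≤ K * X1 ^ 2) :
    cE * (d + l ^ 2 * v) ≤ K * ((1 - l) * X0 + l * X1) ^ 2 := by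
  have hcr : cE * d ≤ K * (X0 * X1) := by
    have h2 : (cE * d) ^ 2 ≤ (K * (X0 * X1)) ^ 2 := by
      calc (cE * d) ^ 2 = (cE * d) * (cE * d) := by ring
        _ ≤ (cE * d) * (cE * (d + v)) := by
          refine mul_le_mul_of_nonneg_left ?_ (by positivity)
          exact mul_le_mul_of_nonneg_left (by linarith) hcE
        _ ≤ (K * X0 ^ 2) * (K * X1 ^ 2) := by
          refine mul_le_mul h0 h1 (by positivity) (by positivity)
        _ = (K * (X0 * X1)) ^ 2 := by ring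
    exact (pow_le_pow_iff_left₀ (by positivity) (by positivity) two_ne_zero).1 h2
  have h3 : (1 - l) ^ 2 * (cE * d) ≤ (1 - l) ^ 2 * (K * X0 ^ 2) :=
    mul_le_mul_of_nonneg_left h0 (sq_nonneg _)
  have h4 : l ^ 2 * (cE * (d + v)) ≤ l ^ 2 * (K * X1 ^ 2) :=
    mul_le_mul_of_nonneg_left h1 (sq_nonneg _)
  have h5 : (2 * l * (1 - l)) * (cE * d) ≤ (2 * l * (1 - l)) * (K * (X0 * X1)) :=
    mul_le_mul_of_nonneg_left hcr (mul_nonneg (by linarith) (by linarith))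
  have e1 : cE * (d + l ^ 2 * v) =
      (1 - l) ^ 2 * (cE * d) + l ^ 2 * (cE * (d + v)) + (2 * l * (1 - l)) * (cE * d) := by ring
  have e2 : K * ((1 - l) * X0 + l * X1) ^ 2 =
      (1 - l) ^ 2 * (K * X0 ^ 2) + l ^ 2 * (K * X1 ^ 2) + (2 * l * (1 - l)) * (K * (X0 * X1)) := by
    ring
  rw [e1, e2]
  linarith

theorem hSI : StSI := by
  intro n hn s r l α b W Y a₁ a₂ hs hr hsr hl hα hα2 hb hb2 hW hY ha1 ha2 e1 e2
  have hN : (2 : ℝ) ≤ (n : ℝ) := by exact_mod_cast hn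
  unfold kn at *
  generalize (n : ℝ) = N at *
  obtain ⟨p, hp⟩ : ∃ p : ℝ, p = (N - 1) / N := ⟨_, rfl⟩
  have hNp : 0 < N := by linarith
  have hp0 : 0 < p := by rw [hp]; exact div_pos (by linarith) hNp
  have hκp : 2 * (N - 1) / (N * (N + 10)) = p * (2 / (N + 10)) := by
    rw [hp]; field_simp
  obtain ⟨κ, hκ⟩ : ∃ κ : ℝ, κ = p * (2 / (N + 10)) := ⟨_, rfl⟩
  rw [← hκ] at hκp
  rw [← hp] at hα2 hb2 e1 e2
  rw [hκp] at hsr hl
  rw [hκp]
  have hκs : 0 < κ - s := by linarith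
  have hrl : r = l * (κ - s) := by rw [hl]; field_simp
  have hl0 : 0 < l := by rw [hl]; positivity
  have hl1 : l < 1 := by rw [hl, div_lt_one hκs]; linarith
  obtain ⟨d, hd⟩ : ∃ d : ℝ, d = p * (κ - s) := ⟨_, rfl⟩
  have hd0 : 0 < d := by rw [hd]; positivity
  have hdα : d + α ^ 2 = 2 / (N + 10) * p ^ 2 := by
    rw [hd, hα2, hκ]; ring
  have hb2l : b ^ 2 = l * d := by
    rw [hb2, hrl, hd]; ring
  have h210 : 2 / (N + 10) < 1 := by rw [div_lt_one (by linarith)]; linarith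
  have hαp : α < p := by
    have h1 : α ^ 2 < p ^ 2 := by
      have h2 : 2 / (N + 10) * p ^ 2 ≤ 1 * p ^ 2 :=
        mul_le_mul_of_nonneg_right h210.le (by positivity)
      linarith
    exact (pow_lt_pow_iff_left₀ hα hp0.le two_ne_zero).1 h1
  obtain ⟨q, hq⟩ : ∃ q : ℝ, q = p - α := ⟨_, rfl⟩
  have hq0 : 0 < q := by rw [hq]; linarith
  have hdq : d ≤ 2 / (N + 8) * q ^ 2 := by
    have h1 : 2 / (N + 8) * q ^ 2 - d = (N + 10) / (N + 8) * (α - 2 / (N + 10) * p) ^ 2 := by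
      have h2 : d = 2 / (N + 10) * p ^ 2 - α ^ 2 := by linarith
      rw [h2, hq]
      field_simp
      ring
    have h3 : 0 ≤ (N + 10) / (N + 8) * (α - 2 / (N + 10) * p) ^ 2 := by positivity
    linarith
  obtain ⟨c, hc⟩ : ∃ c : ℝ, c = (N + 6) ^ 2 / ((N + 2) * (N + 10)) := ⟨_, rfl⟩
  have hc0 : 0 < c := by rw [hc]; positivity
  have hK0 : 0 < 2 / (N + 2) := by positivity
  have hρ1 : 0 < 1 - 2 / (N + 8) := by
    rw [sub_pos, div_lt_one (by linarith)]; linarith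
  have hX0 : (1 - 2 / (N + 8)) * q ^ 2 ≤ q ^ 2 - d := by
    have : (1 - 2 / (N + 8)) * q ^ 2 = q ^ 2 - 2 / (N + 8) * q ^ 2 := by ring
    linarith
  have hX00 : 0 ≤ q ^ 2 - d := le_trans (by positivity) hX0
  -- case l = 0
  have h0 : c * (q ^ 2 + d) * d ≤ 2 / (N + 2) * (q ^ 2 - d) ^ 2 := by
    calc c * (q ^ 2 + d) * d
        ≤ c * (q ^ 2 + 2 / (N + 8) * q ^ 2) * (2 / (N + 8) * q ^ 2) := by
          refine mul_le_mul ?_ hdq hd0.le (by positivity)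
          exact mul_le_mul_of_nonneg_left (by linarith) hc0.le
      _ = 2 / (N + 2) * ((1 - 2 / (N + 8)) * q ^ 2) ^ 2 := by
          rw [hc]; field_simp; ring
      _ ≤ 2 / (N + 2) * (q ^ 2 - d) ^ 2 := by
          refine mul_le_mul_of_nonneg_left ?_ hK0.le
          exact pow_le_pow_left₀ (by positivity) hX0 2
  -- case l = 1
  have h1 : c * (q ^ 2 + d) * (d + α ^ 2) ≤ 2 / (N + 2) * (q * p) ^ 2 := by
    have h2 : c * (2 / (N + 8)) ≤ 2 / (N + 2) := by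
      rw [hc]
      have : (N + 6) ^ 2 / ((N + 2) * (N + 10)) * (2 / (N + 8)) =
          2 / (N + 2) * ((N + 6) ^ 2 / ((N + 10) * (N + 8))) := by
        field_simp
      rw [this]
      have h3 : (N + 6) ^ 2 / ((N + 10) * (N + 8)) ≤ 1 := by
        rw [div_le_one (by positivity)]; nlinarith
      calc 2 / (N + 2) * ((N + 6) ^ 2 / ((N + 10) * (N + 8))) ≤ 2 / (N + 2) * 1 :=
            mul_le_mul_of_nonneg_left h3 hK0.le
        _ = 2 / (N + 2) := mul_one _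
    calc c * (q ^ 2 + d) * (d + α ^ 2)
        ≤ c * (q ^ 2 + 2 / (N + 8) * q ^ 2) * (2 / (N + 10) * p ^ 2) := by
          rw [hdα]
          refine mul_le_mul_of_nonneg_right ?_ (by positivity)
          exact mul_le_mul_of_nonneg_left (by linarith) hc0.le
      _ = c * (2 / (N + 8)) * (q * p) ^ 2 := by
          field_simp; ring
      _ ≤ 2 / (N + 2) * (q * p) ^ 2 := mul_le_mul_of_nonneg_right h2 (by positivity)
  have hmain : c * (q ^ 2 + d) * (d + l ^ 2 * α ^ 2) ≤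
      2 / (N + 2) * ((1 - l) * (q ^ 2 - d) + l * (q * p)) ^ 2 :=
    interp (by positivity) hK0.le hd0.le (by positivity) hX00 (by positivity) hl0.le hl1.le h0 h1
  obtain ⟨D, hD⟩ : ∃ D : ℝ, D = (1 - l) * (q ^ 2 - d) + l * (q * p) := ⟨_, rfl⟩
  have hD0 : 0 ≤ D := by
    rw [hD]
    have : 0 ≤ (1 - l) * (q ^ 2 - d) := mul_nonneg (by linarith) hX00
    positivity
  rw [← hD] at hmain
  -- the linear combination of the two hypotheses
  have hDW : D * W ≤ q * a₁ + b * a₂ := by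
    have f1 := mul_le_mul_of_nonneg_left e1 hq0.le
    have f2 := mul_le_mul_of_nonneg_left e2 hb
    have f3 : b * ((1 - l) / l * b * W) = (1 - l) * d * W := by
      have : b * ((1 - l) / l * b * W) = (1 - l) / l * b ^ 2 * W := by ring
      rw [this, hb2l]
      field_simp
    have f4 : D * W = q * ((p - (1 - l) * α) * W) - (1 - l) * d * W := by
      rw [hD, hq]; ring
    rw [f4]
    have f5 : b * ((p - α) * Y) = q * (b * Y) := by rw [hq]; ring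
    nlinarith [f1, f2, f3, f5]
  have hCS : (q * a₁ + b * a₂) ^ 2 ≤ (q ^ 2 + d) * (a₁ ^ 2 + l * a₂ ^ 2) := by
    have g1 : (q ^ 2 + d) * (a₁ ^ 2 + l * a₂ ^ 2) =
        q ^ 2 * a₁ ^ 2 + (l * q ^ 2) * a₂ ^ 2 + d * a₁ ^ 2 + (l * d) * a₂ ^ 2 := by ring
    have g2 : (q * a₁ + b * a₂) ^ 2 = q ^ 2 * a₁ ^ 2 + 2 * q * b * a₁ * a₂ + b ^ 2 * a₂ ^ 2 := by
      ring
    rw [g1, g2, hb2l]
    -- need 2 q b a₁ a₂ ≤ l q² a₂² + d a₁²;  multiply by l
    have g3 : 0 ≤ (l * q * a₂ - b * a₁) ^ 2 := sq_nonneg _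
    have g4 : (l * q * a₂ - b * a₁) ^ 2 =
        l * ((l * q ^ 2) * a₂ ^ 2 + d * a₁ ^ 2 - 2 * q * b * a₁ * a₂) := by
      have : (l * q * a₂ - b * a₁) ^ 2 =
        l ^ 2 * q ^ 2 * a₂ ^ 2 - 2 * l * q * a₂ * b * a₁ + b ^ 2 * a₁ ^ 2 := by ring
      rw [this, hb2l]; ring
    rw [g4] at g3
    have g5 := nonneg_of_mul_nonneg_right g3 hl0
    linarith
  have hfin : D ^ 2 * W ^ 2 ≤ (q ^ 2 + d) * (a₁ ^ 2 + l * a₂ ^ 2) := by
    have : (D * W) ^ 2 ≤ (q * a₁ + b * a₂) ^ 2 := pow_le_pow_left₀ (by positivity) hDW 2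
    calc D ^ 2 * W ^ 2 = (D * W) ^ 2 := by ring
      _ ≤ _ := this.trans hCS
  have hstep : c * (d + l ^ 2 * α ^ 2) * W ^ 2 ≤ 2 / (N + 2) * (a₁ ^ 2 + l * a₂ ^ 2) := by
    have hE : 0 < q ^ 2 + d := by positivity
    have k1 : (q ^ 2 + d) * (c * (d + l ^ 2 * α ^ 2) * W ^ 2) ≤
        (q ^ 2 + d) * (2 / (N + 2) * (a₁ ^ 2 + l * a₂ ^ 2)) := by
      calc (q ^ 2 + d) * (c * (d + l ^ 2 * α ^ 2) * W ^ 2)
          = (c * (q ^ 2 + d) * (d + l ^ 2 * α ^ 2)) * W ^ 2 := by ring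
        _ ≤ (2 / (N + 2) * D ^ 2) * W ^ 2 := mul_le_mul_of_nonneg_right hmain (by positivity)
        _ = 2 / (N + 2) * (D ^ 2 * W ^ 2) := by ring
        _ ≤ 2 / (N + 2) * ((q ^ 2 + d) * (a₁ ^ 2 + l * a₂ ^ 2)) :=
            mul_le_mul_of_nonneg_left hfin hK0.le
        _ = (q ^ 2 + d) * (2 / (N + 2) * (a₁ ^ 2 + l * a₂ ^ 2)) := by ring
    exact le_of_mul_le_mul_left k1 hE
  rw [← hc]
  have m1 : p * (c * ((l ^ 2 * s + (κ - s)) * W ^ 2)) = c * (d + l ^ 2 * α ^ 2) * W ^ 2 := by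
    rw [hd, hα2]; ring
  have m2 : p * (2 * N / ((N + 2) * (N - 1)) * (a₁ ^ 2 + l * a₂ ^ 2)) =
      2 / (N + 2) * (a₁ ^ 2 + l * a₂ ^ 2) := by
    have hN1 : N - 1 ≠ 0 := by
      have : 0 < N - 1 := by linarith
      exact this.ne'
    rw [hp]; field_simp
  have m3 : p * (c * ((l ^ 2 * s + (κ - s)) * W ^ 2)) ≤
      p * (2 * N / ((N + 2) * (N - 1)) * (a₁ ^ 2 + l * a₂ ^ 2)) := by
    rw [m1, m2]; exact hstep
  exact le_of_mul_le_mul_left m3 hp0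

end Helper76.PI
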