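import Pool.Agent.Helper35.PI.St2

/-! # Project PI, module G9: the jets of `Z` -/

set_option autoImplicit false

namespace Helper76.PI

open Helper35.PI
open scoped ContDiff Topology BigOperators

/-- the value, the spatial gradient and the heat operator of a scalar function at `z` -/
private def HJ (n : ℕ) (z : EE n × ℝ) (φ : EE n × ℝ → ℝ) (v : ℝ) (g : Fin n → ℝ) (h : ℝ) : Prop :=
  ContDiffAt ℝ 4 φ z ∧ φ z = v ∧ (∀ k, jg φ z k = g k) ∧ jh φ z = h

private lemma HJ_mul (hJB : StJB) {n : ℕ} {z : EE n × ℝ} {φ ψ : EE n × ℝ → ℝ} {v v' : ℝ}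
    {g g' : Fin n → ℝ} {h h' : ℝ} (h1 : HJ n z φ v g h) (h2 : HJ n z ψ v' g' h') :
    HJ n z (fun y => φ y * ψ y) (v * v') (fun k => g k * v' + v * g' k)
      (h * v' + v * h' - 2 * ∑ k, g k * g' k) := by
  obtain ⟨c1, v1, g1, j1⟩ := h1
  obtain ⟨c2, v2, g2, j2⟩ := h2
  have hb := (hJB n 0 z).1 φ ψ (c1.of_le (by norm_num)) (c2.of_le (by norm_num))
  refine ⟨c1.mul c2, ?_, ?_, ?_⟩
  · rw [← v1, ← v2]
  · intro k
    rw [hb.1 k, v1, v2, g1, g2]
  · rw [hb.2, v1, v2, j1, j2]
    simp only [g1, g2]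

private lemma HJ_sum (hJA : StJA) {n m : ℕ} {z : EE n × ℝ} {φ : Fin m → EE n × ℝ → ℝ}
    {v : Fin m → ℝ} {g : Fin m → Fin n → ℝ} {h : Fin m → ℝ}
    (H : ∀ i, HJ n z (φ i) (v i) (g i) (h i)) :
    HJ n z (fun y => ∑ i, φ i y) (∑ i, v i) (fun k => ∑ i, g i k) (∑ i, h i) := by
  have ha := (hJA n ℝ z).2.2.2.2 m φ (fun i => (H i).1.of_le (by norm_num))
  refine ⟨ContDiffAt.sum fun i _ => (H i).1, ?_, ?_, ?_⟩
  · exact Finset.sum_congr rfl fun i _ => (H i).2.1
  · intro k
    rw [ha.1 k]
    exact Finset.sum_congr rfl fun i _ => (H i).2.2.1 k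
  · rw [ha.2]
    exact Finset.sum_congr rfl fun i _ => (H i).2.2.2

private lemma HJ_cast {n : ℕ} {z : EE n × ℝ} {φ ψ : EE n × ℝ → ℝ} {v v' : ℝ}
    {g g' : Fin n → ℝ} {h h' : ℝ} (H : HJ n z φ v g h) (e : φ = ψ) (e1 : v = v')
    (e2 : ∀ k, g k = g' k) (e3 : h = h') : HJ n z ψ v' g' h' := by
  subst e e1 e3
  have : g = g' := funext e2
  subst this
  exact H

private lemma sum_rot {n m : ℕ} (f : Fin m → Fin n → Fin n → ℝ) :
    ∑ a, ∑ c, ∑ d, f a c d = ∑ c, ∑ d, ∑ a, f a c d := by
  rw [Finset.sum_comm]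
  refine Finset.sum_congr rfl fun c _ => ?_
  rw [Finset.sum_comm]

private lemma sum_dd {n : ℕ} (i j : Fin n) (F : Fin n → Fin n → ℝ) :
    ∑ k, ∑ l, ((if i = k then (1 : ℝ) else 0) * (if j = l then (1 : ℝ) else 0)) * F k l = F i j := by
  have h1 : ∀ k, ∑ l, ((if i = k then (1 : ℝ) else 0) * (if j = l then (1 : ℝ) else 0)) * F k l =
      (if i = k then F k j else 0) := by
    intro k
    by_cases hk : i = k
    · simp [hk]
    · simp [hk]
  rw [Finset.sum_congr rfl fun k _ => h1 k]
  simp

private lemma sum_xd {n : ℕ} (j : Fin n) (x : Fin n → ℝ) (F : Fin n → Fin n → ℝ) :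
    ∑ k, ∑ l, (x k * (if j = l then (1 : ℝ) else 0)) * F k l = ∑ k, x k * F k j := by
  refine Finset.sum_congr rfl fun k _ => ?_
  simp

private lemma sum_dy {n : ℕ} (i : Fin n) (y : Fin n → ℝ) (F : Fin n → Fin n → ℝ) :
    ∑ k, ∑ l, ((if i = k then (1 : ℝ) else 0) * y l) * F k l = ∑ l, y l * F i l := by
  rw [Finset.sum_comm]
  refine Finset.sum_congr rfl fun l _ => ?_
  simp

section
variable {n N : ℕ} (A : Fin n → Fin n → EE N) (T : Fin n → Fin n → Fin n → EE N)

/-- `c_ab = Σ_k ⟨A_ak, A_bk⟩` -/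
private noncomputable def cc (a b : Fin n) : ℝ := ∑ k, inner ℝ (A a k) (A b k)

/-- the heat operator of `z_ij` -/
private noncomputable def hz (i j : Fin n) : ℝ :=
  -2 * (∑ m, inner ℝ (T i j m) (et T m)) + 2 * (∑ c, ∑ d, inner ℝ (A i j) (A c d) * zz A c d)
    - 2 * (∑ c, ∑ d, inner ℝ (A c i) (A d j) * zz A c d)

private noncomputable def hR (i j k l : Fin n) : ℝ :=
  -2 * (∑ m, inner ℝ (T i j m) (T k l m))
        + 2 * (∑ a, ∑ b, inner ℝ (A i j) (A a b) * inner ℝ (A k l) (A a b))
        - 2 * (∑ a, ∑ b, inner ℝ (A a i) (A b j) * inner ℝ (A a b) (A k l))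
        - 2 * (∑ a, ∑ b, inner ℝ (A a k) (A b l) * inner ℝ (A a b) (A i j))

private lemma zz_eq (c d : Fin n) : zz A c d = ∑ p, inner ℝ (A c d) (A p p) := by
  unfold zz Hv
  rw [inner_sum]

private lemma sum_hR (i j : Fin n) :
    ∑ p, hR A T i j p p = hz A T i j - 2 * ∑ c, ∑ d, cc A c d * inner ℝ (A i j) (A c d) := by
  unfold hR hz
  rw [Finset.sum_sub_distrib, Finset.sum_sub_distrib, Finset.sum_add_distrib]
  simp only [← Finset.mul_sum]
  have e1 : ∑ p, ∑ m, (inner ℝ (T i j m) (T p p m) : ℝ) = ∑ m, inner ℝ (T i j m) (et T m) := by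
    rw [Finset.sum_comm]
    refine Finset.sum_congr rfl fun m _ => ?_
    unfold et
    rw [inner_sum]
  have e2 : ∑ p, ∑ a, ∑ b, (inner ℝ (A i j) (A a b) * inner ℝ (A p p) (A a b) : ℝ) =
      ∑ c, ∑ d, inner ℝ (A i j) (A c d) * zz A c d := by
    rw [sum_rot]
    refine Finset.sum_congr rfl fun c _ => Finset.sum_congr rfl fun d _ => ?_
    rw [← Finset.mul_sum, zz_eq]
    congr 1
    exact Finset.sum_congr rfl fun p _ => real_inner_comm _ _
  have e3 : ∑ p, ∑ a, ∑ b, (inner ℝ (A a i) (A b j) * inner ℝ (A a b) (A p p) : ℝ) =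
      ∑ c, ∑ d, inner ℝ (A c i) (A d j) * zz A c d := by
    rw [sum_rot]
    refine Finset.sum_congr rfl fun c _ => Finset.sum_congr rfl fun d _ => ?_
    rw [← Finset.mul_sum, zz_eq]
  have e4 : ∑ p, ∑ a, ∑ b, (inner ℝ (A a p) (A b p) * inner ℝ (A a b) (A i j) : ℝ) =
      ∑ c, ∑ d, cc A c d * inner ℝ (A i j) (A c d) := by
    rw [sum_rot]
    refine Finset.sum_congr rfl fun c _ => Finset.sum_congr rfl fun d _ => ?_
    rw [← Finset.sum_mul]
    unfold cc
    rw [real_inner_comm (A i j) (A c d)]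
  rw [e1, e2, e3, e4]

private lemma jet_z (hJA : StJA) (hJB : StJB) (z : EE n × ℝ) (GI : Fin n → Fin n → EE n × ℝ → ℝ)
    (R : Fin n → Fin n → Fin n → Fin n → EE n × ℝ → ℝ)
    (hGI : ∀ a b, HJ n z (GI a b) (if a = b then 1 else 0) (fun _ => 0) (2 * cc A a b))
    (hRR : ∀ i j k l, HJ n z (R i j k l) (inner ℝ (A i j) (A k l))
      (fun m => inner ℝ (T i j m) (A k l) + inner ℝ (A i j) (T k l m)) (hR A T i j k l))
    (i j : Fin n) :
    HJ n z (fun y => ∑ a, ∑ b, GI a b y * R i j a b y) (zz A i j) (gz A T i j) (hz A T i j) := by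
  have h1 := HJ_sum hJA (fun a => HJ_sum hJA (fun b => HJ_mul hJB (hGI a b) (hRR i j a b)))
  refine HJ_cast h1 rfl ?_ ?_ ?_
  · rw [zz_eq]
    refine Finset.sum_congr rfl fun a _ => ?_
    simp
  · intro k
    show ∑ a, ∑ b, ((0 : ℝ) * (inner ℝ (A i j) (A a b)) +
      (if a = b then 1 else 0) * (inner ℝ (T i j k) (A a b) + inner ℝ (A i j) (T a b k))) = _
    have h2 : ∀ a, ∑ b, ((0 : ℝ) * (inner ℝ (A i j) (A a b)) +
      (if a = b then 1 else 0) * (inner ℝ (T i j k) (A a b) + inner ℝ (A i j) (T a b k))) =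
      inner ℝ (T i j k) (A a a) + inner ℝ (A i j) (T a a k) := by
      intro a
      simp
    rw [Finset.sum_congr rfl fun a _ => h2 a, Finset.sum_add_distrib]
    unfold gz Hv et
    rw [inner_sum, inner_sum]
  · have h3 : ∀ a, ∑ b, ((2 * cc A a b) * (inner ℝ (A i j) (A a b) : ℝ) +
        (if a = b then 1 else 0) * hR A T i j a b -
        2 * ∑ m, (0 : ℝ) * (inner ℝ (T i j m) (A a b) + inner ℝ (A i j) (T a b m))) =
        2 * ∑ b, cc A a b * inner ℝ (A i j) (A a b) + hR A T i j a a := by
      intro a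
      rw [Finset.sum_sub_distrib, Finset.sum_add_distrib]
      simp only [zero_mul, Finset.sum_const_zero, mul_zero, sub_zero, ite_mul, one_mul,
        Finset.sum_ite_eq, Finset.mem_univ, if_true]
      rw [Finset.mul_sum]
      congr 1
      exact Finset.sum_congr rfl fun b _ => by ring
    rw [Finset.sum_congr rfl fun a _ => h3 a, Finset.sum_add_distrib, sum_hR, ← Finset.mul_sum]
    ring

end

theorem hG9 (hJA : StJA) (hJB : StJB) (hG1 : StG1) (hG5 : StG5) (hG6 : StG6) : StG9 := by
  intro n N x₀ L u t₀ hu A T hA hT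
  have hsym : ∀ i j, A i j = A j i := by
    rw [hA]
    exact (hG1 n N x₀ L u t₀ hu).1
  have hGI : ∀ a b, HJ n (0, t₀) (GIf x₀ L u a b) (if a = b then 1 else 0) (fun _ => 0)
      (2 * cc A a b) := by
    intro a b
    obtain ⟨c1, c2, c3, c4⟩ := hG5 n N x₀ L u t₀ hu a b
    refine ⟨c1, c2, c3, ?_⟩
    rw [c4, cc, hA]
  have hRR : ∀ i j k l, HJ n (0, t₀) (Rf x₀ L u i j k l) (inner ℝ (A i j) (A k l))
      (fun m => inner ℝ (T i j m) (A k l) + inner ℝ (A i j) (T k l m)) (hR A T i j k l) := by
    intro i j k l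
    obtain ⟨c1, c2, c3, c4⟩ := hG6 n N x₀ L u t₀ hu A T hA hT i j k l
    exact ⟨c1, c2, c3, c4⟩
  have hz' := jet_z A T hJA hJB (0, t₀) (GIf x₀ L u) (Rf x₀ L u) hGI hRR
  have hGG : ∀ i j k l, HJ n (0, t₀) (fun y => GIf x₀ L u i k y * GIf x₀ L u j l y)
      ((if i = k then 1 else 0) * (if j = l then 1 else 0)) (fun _ => 0)
      ((2 * cc A i k) * (if j = l then 1 else 0) + (if i = k then 1 else 0) * (2 * cc A j l)) := by
    intro i j k l
    refine HJ_cast (HJ_mul hJB (hGI i k) (hGI j l)) rfl rfl (fun m => by ring) ?_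
    simp
  have hzz := fun i j k l => HJ_mul hJB (hz' i j) (hz' k l)
  have hterm := fun i j k l => HJ_mul hJB (hGG i j k l) (hzz i j k l)
  have hall := HJ_sum hJA (fun i => HJ_sum hJA (fun j => HJ_sum hJA (fun k => HJ_sum hJA
    (fun l => hterm i j k l))))
  have hZ' : HJ n (0, t₀) (Zf x₀ L u) (ZZ A) (gZ A T) (hZ A T) := by
    refine HJ_cast hall ?_ ?_ ?_ ?_
    · funext y
      unfold Zf zsq
      have hin : ∀ i j, (inner ℝ (sff (grf x₀ L u y.2) y.1 i j) (mcv (grf x₀ L u y.2) y.1) : ℝ) =
          ∑ a, ∑ b, GIf x₀ L u a b y * Rf x₀ L u i j a b y := by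
        intro i j
        unfold mcv
        rw [inner_sum]
        refine Finset.sum_congr rfl fun a _ => ?_
        rw [inner_sum]
        refine Finset.sum_congr rfl fun b _ => ?_
        rw [real_inner_smul_right]
        rfl
      refine Finset.sum_congr rfl fun i _ => Finset.sum_congr rfl fun j _ =>
        Finset.sum_congr rfl fun k _ => Finset.sum_congr rfl fun l _ => ?_
      rw [hin, hin]
      rfl
    · unfold ZZ
      refine Finset.sum_congr rfl fun i _ => Finset.sum_congr rfl fun j _ => ?_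
      rw [sum_dd i j (fun k l => zz A i j * zz A k l)]
      ring
    · intro m
      unfold gZ
      rw [Finset.mul_sum]
      refine Finset.sum_congr rfl fun i _ => ?_
      rw [Finset.mul_sum]
      refine Finset.sum_congr rfl fun j _ => ?_
      have h1 : ∀ k l : Fin n, ((0 : ℝ) * (zz A i j * zz A k l) +
          ((if i = k then 1 else 0) * (if j = l then 1 else 0)) *
            (gz A T i j m * zz A k l + zz A i j * gz A T k l m)) =
          ((if i = k then 1 else 0) * (if j = l then 1 else 0)) *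
            (gz A T i j m * zz A k l + zz A i j * gz A T k l m) := by
        intro k l; ring
      show ∑ k, ∑ l, ((0 : ℝ) * (zz A i j * zz A k l) +
          ((if i = k then 1 else 0) * (if j = l then 1 else 0)) *
            (gz A T i j m * zz A k l + zz A i j * gz A T k l m)) = _
      rw [Finset.sum_congr rfl fun k _ => Finset.sum_congr rfl fun l _ => h1 k l,
        sum_dd i j (fun k l => gz A T i j m * zz A k l + zz A i j * gz A T k l m)]
      ring
    · -- the heat operator
      have h1 : ∀ i j : Fin n, ∑ k, ∑ l,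
          (((2 * cc A i k) * (if j = l then 1 else 0) + (if i = k then 1 else 0) * (2 * cc A j l)) *
            (zz A i j * zz A k l) +
          ((if i = k then 1 else 0) * (if j = l then 1 else 0)) *
            (hz A T i j * zz A k l + zz A i j * hz A T k l -
              2 * ∑ m, gz A T i j m * gz A T k l m) -
          2 * ∑ m, (0 : ℝ) * (gz A T i j m * zz A k l + zz A i j * gz A T k l m)) =
          2 * ∑ k, cc A i k * (zz A i j * zz A k j) + 2 * ∑ l, cc A j l * (zz A i j * zz A i l) +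
          (2 * (zz A i j * hz A T i j) - 2 * ∑ m, gz A T i j m ^ 2) := by
        intro i j
        have h2 : ∀ k l : Fin n,
          (((2 * cc A i k) * (if j = l then 1 else 0) + (if i = k then 1 else 0) * (2 * cc A j l)) *
            (zz A i j * zz A k l) +
          ((if i = k then 1 else 0) * (if j = l then 1 else 0)) *
            (hz A T i j * zz A k l + zz A i j * hz A T k l -
              2 * ∑ m, gz A T i j m * gz A T k l m) -
          2 * ∑ m, (0 : ℝ) * (gz A T i j m * zz A k l + zz A i j * gz A T k l m)) =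
          ((2 * cc A i k) * (if j = l then 1 else 0)) * (zz A i j * zz A k l) +
          ((if i = k then 1 else 0) * (2 * cc A j l)) * (zz A i j * zz A k l) +
          ((if i = k then 1 else 0) * (if j = l then 1 else 0)) *
            (hz A T i j * zz A k l + zz A i j * hz A T k l -
              2 * ∑ m, gz A T i j m * gz A T k l m) := by
          intro k l
          simp only [zero_mul, Finset.sum_const_zero, mul_zero, sub_zero]
          ring
        rw [Finset.sum_congr rfl fun k _ => Finset.sum_congr rfl fun l _ => h2 k l]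
        simp only [Finset.sum_add_distrib]
        rw [sum_xd j (fun k => 2 * cc A i k) (fun k l => zz A i j * zz A k l),
          sum_dy i (fun l => 2 * cc A j l) (fun k l => zz A i j * zz A k l),
          sum_dd i j (fun k l => hz A T i j * zz A k l + zz A i j * hz A T k l -
              2 * ∑ m, gz A T i j m * gz A T k l m)]
        have e1 : ∑ k, 2 * cc A i k * (zz A i j * zz A k j) =
            2 * ∑ k, cc A i k * (zz A i j * zz A k j) := by
          rw [Finset.mul_sum]
          exact Finset.sum_congr rfl fun k _ => by ring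
        have e2 : ∑ k, 2 * cc A j k * (zz A i j * zz A i k) =
            2 * ∑ k, cc A j k * (zz A i j * zz A i k) := by
          rw [Finset.mul_sum]
          exact Finset.sum_congr rfl fun k _ => by ring
        have e3 : ∑ m, gz A T i j m * gz A T i j m = ∑ m, gz A T i j m ^ 2 :=
          Finset.sum_congr rfl fun m _ => by ring
        rw [e1, e2, e3]
        ring
      refine (Finset.sum_congr rfl fun i _ => Finset.sum_congr rfl fun j _ => h1 i j).trans ?_
      simp only [Finset.sum_add_distrib, Finset.sum_sub_distrib, ← Finset.mul_sum]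
      -- symmetry
      have hzs : ∀ i j, zz A i j = zz A j i := by
        intro i j
        unfold zz
        rw [hsym i j]
      have s1 : ∑ i, ∑ j, ∑ l, cc A j l * (zz A i j * zz A i l) =
          ∑ i, ∑ j, ∑ k, cc A i k * (zz A i j * zz A k j) := by
        rw [Finset.sum_comm]
        refine Finset.sum_congr rfl fun i _ => Finset.sum_congr rfl fun j _ =>
          Finset.sum_congr rfl fun k _ => ?_
        rw [hzs j i, hzs j k]
      have s2 : ∑ i, ∑ j, ∑ k, ∑ a, inner ℝ (A i a) (A a k) * (zz A i j * zz A k j) =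
          ∑ i, ∑ j, ∑ k, cc A i k * (zz A i j * zz A k j) := by
        refine Finset.sum_congr rfl fun i _ => Finset.sum_congr rfl fun j _ =>
          Finset.sum_congr rfl fun k _ => ?_
        rw [← Finset.sum_mul]
        congr 1
        unfold cc
        exact Finset.sum_congr rfl fun a _ => by rw [hsym a k]
      have s3 : ∑ i, ∑ j, zz A i j * hz A T i j =
          -2 * (∑ i, ∑ j, ∑ k, zz A i j * inner ℝ (T i j k) (et T k))
          + 2 * ‖∑ i, ∑ j, zz A i j • A i j‖ ^ 2
          - 2 * (∑ i, ∑ j, ∑ a, ∑ b, zz A i j * zz A a b * inner ℝ (A a i) (A b j)) := by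
        have n1 : ‖∑ i, ∑ j, zz A i j • A i j‖ ^ 2 =
            ∑ i, ∑ j, zz A i j * ∑ c, ∑ d, inner ℝ (A i j) (A c d) * zz A c d := by
          rw [← real_inner_self_eq_norm_sq, sum_inner]
          refine Finset.sum_congr rfl fun i _ => ?_
          rw [sum_inner]
          refine Finset.sum_congr rfl fun j _ => ?_
          rw [real_inner_smul_left, inner_sum]
          congr 1
          refine Finset.sum_congr rfl fun c _ => ?_
          rw [inner_sum]
          refine Finset.sum_congr rfl fun d _ => ?_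
          rw [real_inner_smul_right]
          ring
        rw [n1, Finset.mul_sum, Finset.mul_sum, Finset.mul_sum, ← Finset.sum_add_distrib,
          ← Finset.sum_sub_distrib]
        refine Finset.sum_congr rfl fun i _ => ?_
        rw [Finset.mul_sum, Finset.mul_sum, Finset.mul_sum, ← Finset.sum_add_distrib,
          ← Finset.sum_sub_distrib]
        refine Finset.sum_congr rfl fun j _ => ?_
        unfold hz
        have p1 : ∑ k, zz A i j * (inner ℝ (T i j k) (et T k) : ℝ) =
            zz A i j * ∑ k, inner ℝ (T i j k) (et T k) := by rw [Finset.mul_sum]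
        have p2 : ∑ a, ∑ b, zz A i j * zz A a b * (inner ℝ (A a i) (A b j) : ℝ) =
            zz A i j * ∑ c, ∑ d, inner ℝ (A c i) (A d j) * zz A c d := by
          rw [Finset.mul_sum]
          refine Finset.sum_congr rfl fun a _ => ?_
          rw [Finset.mul_sum]
          refine Finset.sum_congr rfl fun b _ => ?_
          ring
        rw [p1, p2]
        ring
      unfold hZ
      rw [s1, s2, s3]
      ring
  obtain ⟨c1, c2, c3, c4⟩ := hZ'
  exact ⟨c1.of_le (by norm_num), c2, c3, c4⟩

end Helper76.PI
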